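import Pool.Agent.N594.CT.Stm

/-!
# The derived graph of a configuration `WC` is in the class

Project CT (helper594), part XC (helper507).
-/

set_option autoImplicit false
set_option linter.all false

open Finset
open scoped Classical

namespace Pool.Agent.N507.CT.XC

open Pool.Agent.N594.CT

theorem sum_w (r A : ℕ) (hr : 0 < r) :
    ∑ i : Fin r, (A / r + if (i : ℕ) < A % r then 1 else 0) = A := by
  have h1 : ∑ i : Fin r, (if (i : ℕ) < A % r then 1 else 0) = A % r := by
    rw [Fin.sum_univ_eq_sum_range (fun i => if i < A % r then 1 else 0) r, Finset.sum_boole]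
    have h2 : (range r).filter (fun i => i < A % r) = range (A % r) := by
      ext i
      rw [mem_filter, mem_range, mem_range]
      have := Nat.mod_lt A hr
      omega
    rw [h2, card_range]
    rfl
  rw [Finset.sum_add_distrib, h1, Finset.sum_const, card_univ, Fintype.card_fin, smul_eq_mul]
  exact Nat.div_add_mod A r

/-- one part -/
def Pt (k r : ℕ) (j : Fin k) : Finset (Fin k × Fin r) := ({j} : Finset (Fin k)) ×ˢ univ

theorem mem_Pt {k r : ℕ} {j : Fin k} {x : Fin k × Fin r} : x ∈ Pt k r j ↔ x.1 = j := by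
  rw [Pt, mem_product, mem_singleton]
  exact ⟨fun h => h.1, fun h => ⟨h, mem_univ _⟩⟩

theorem card_Pt (k r : ℕ) (j : Fin k) : (Pt k r j).card = r := by
  rw [Pt, card_product, card_singleton, one_mul, card_univ, Fintype.card_fin]

theorem main (hW : S_W) : S_XC := by
  intro l k q' r hl hk hq' hr
  refine ⟨q' + r * (k * (q' - 1) + 1 + r + 1), fun q hq V H K hcls hWC R => ?_⟩
  have hr0 : 0 < r := by omega
  obtain ⟨m', hm'⟩ : ∃ m', m' = k * (q' - 1) + 1 := ⟨_, rfl⟩
  obtain ⟨A, hA⟩ : ∃ A, A = q - q' := ⟨_, rfl⟩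
  obtain ⟨a, ha⟩ : ∃ a, a = A / r := ⟨_, rfl⟩
  have hAr : r * (m' + r + 1) ≤ A := by
    rw [hA, hm']
    exact Nat.le_sub_of_add_le (by rw [add_comm]; exact hq)
  have hqA : q = A + q' := by
    have : q' ≤ q := le_trans (Nat.le_add_right _ _) hq
    omega
  have ham : m' + r + 1 ≤ a := by
    rw [ha]
    exact (Nat.le_div_iff_mul_le hr0).2 (by rw [mul_comm]; exact hAr)
  have haA : r * a ≤ A := by
    rw [ha]
    exact Nat.mul_div_le A r
  -- the weights
  obtain ⟨w, hw⟩ : ∃ w : Fin r → ℕ, w = fun i : Fin r => A / r + if (i : ℕ) < A % r then 1 else 0 :=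
    ⟨_, rfl⟩
  have hws : ∑ i, w i = A := by
    rw [hw]
    exact sum_w r A hr0
  have hwa : ∀ i, a ≤ w i ∧ w i ≤ a + 1 := by
    intro i
    rw [hw, ha]
    constructor
    · exact Nat.le_add_right _ _
    · refine Nat.add_le_add_left ?_ _
      split_ifs <;> omega
  obtain ⟨I, hInd, hIw⟩ := hW (l + 1) k q V H hcls ((Fin k × Fin r) ⊕ Fin (k * (q' - 1) + 1))
    (Sum.elim K R) (Sum.elim (fun x => w x.2) (fun _ => 1)) (by
      rw [Fintype.sum_sum_type, Fintype.sum_prod_type]
      simp only [Sum.elim_inl, Sum.elim_inr, hws, sum_const, card_univ, Fintype.card_fin,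
        smul_eq_mul, mul_one]
      have e1 : q - 1 = A + (q' - 1) := by omega
      rw [e1, mul_add, add_assoc])
  obtain ⟨IK, hIK⟩ : ∃ IK, IK = I.toLeft := ⟨_, rfl⟩
  obtain ⟨IR, hIR⟩ : ∃ IR, IR = I.toRight := ⟨_, rfl⟩
  have hmK : ∀ x, x ∈ IK ↔ Sum.inl x ∈ I := fun x => by rw [hIK, mem_toLeft]
  have hmR : ∀ x, x ∈ IR ↔ Sum.inr x ∈ I := fun x => by rw [hIR, mem_toRight]
  have hsum : ∑ i ∈ I, Sum.elim (fun x : Fin k × Fin r => w x.2)
      (fun _ : Fin (k * (q' - 1) + 1) => 1) i = ∑ x ∈ IK, w x.2 + IR.card := by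
    have e1 : I = IK.disjSum IR := by
      rw [hIK, hIR]
      exact toLeft_disjSum_toRight.symm
    rw [e1, sum_disjSum]
    simp only [Sum.elim_inl, Sum.elim_inr, sum_const, smul_eq_mul, mul_one]
  rw [hsum] at hIw
  have hIRc : IR.card ≤ m' := by
    have := card_le_univ IR
    rw [Fintype.card_fin] at this
    omega
  -- many elements of `K`
  have hlK : l < IK.card := by
    by_contra hcon
    push Not at hcon
    have h1 : ∑ x ∈ IK, w x.2 ≤ IK.card * (a + 1) := by
      rw [← smul_eq_mul]
      exact sum_le_card_nsmul _ _ _ fun x _ => (hwa x.2).2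
    have h2 : IK.card * (a + 1) ≤ (r - 1) * (a + 1) := Nat.mul_le_mul_right _ (by omega)
    have h3 : (r - 1) * (a + 1) + (a + 1) = r * a + r := by
      obtain ⟨s, rfl⟩ : ∃ s, r = s + 1 := ⟨r - 1, by omega⟩
      rw [Nat.add_sub_cancel]
      ring
    omega
  -- one part
  have hpart : ∃ j : Fin k, IK ⊆ Pt k r j := by
    obtain ⟨x, hx⟩ : IK.Nonempty := by
      rw [← card_pos]
      omega
    refine ⟨x.1, fun y hy => ?_⟩
    rw [mem_Pt]
    by_contra hne
    have hxy : x ≠ y := by
      rintro rfl
      exact hne rfl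
    obtain ⟨e, he1, he2, he3⟩ := exists_subsuperset_card_eq (s := ({x, y} : Finset _)) (t := IK)
      (n := l + 1) (by
        intro z hz
        rw [mem_insert, mem_singleton] at hz
        rcases hz with rfl | rfl
        · exact hx
        · exact hy) (by rw [card_pair hxy]; omega) (by omega)
    have h1 := hWC e he3 ⟨x, he1 (mem_insert_self _ _), y,
      he1 (mem_insert_of_mem (mem_singleton_self _)), fun h => hne h.symm⟩
    refine hInd (e.map Function.Embedding.inl) ?_ (by rw [card_map]; exact he3) ?_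
    · intro z hz
      rw [mem_map] at hz
      obtain ⟨z, hz, rfl⟩ := hz
      exact (hmK z).1 (he2 hz)
    · have e1 : (e.map Function.Embedding.inl).image (Sum.elim K R) = e.image K := by
        rw [map_eq_image, image_image]
        rfl
      rw [e1]
      exact h1
  obtain ⟨j, hj⟩ := hpart
  have hPsum : ∑ x ∈ Pt k r j, w x.2 = A := by
    rw [Pt, sum_product, sum_singleton]
    exact hws
  have hKA : ∑ x ∈ IK, w x.2 ≤ A := by
    rw [← hPsum]
    exact sum_le_sum_of_subset hj
  have hall : Pt k r j ⊆ IK := by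
    intro x hx
    by_contra hxn
    have h1 : IK ⊆ (Pt k r j).erase x := fun y hy =>
      mem_erase.2 ⟨fun h => hxn (h ▸ hy), hj hy⟩
    have h2 : ∑ y ∈ IK, w y.2 ≤ ∑ y ∈ (Pt k r j).erase x, w y.2 := sum_le_sum_of_subset h1
    have h3 := sum_erase_add (Pt k r j) (fun y => w y.2) hx
    rw [hPsum] at h3
    have h4 := (hwa x.2).1
    omega
  obtain ⟨J, hJ1, hJ2⟩ := exists_subset_card_eq (s := IR) (n := q') (by omega)
  refine ⟨J, hJ2, fun e heJ hel hder => ?_⟩
  obtain ⟨-, hder⟩ := hder
  have hno : ∀ x ∈ Pt k r j, ¬ H (insert (K x) (e.image R)) := by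
    intro x hx
    have hd : Disjoint ({Sum.inl x} : Finset ((Fin k × Fin r) ⊕ Fin (k * (q' - 1) + 1)))
        (e.map Function.Embedding.inr) := by
      rw [disjoint_singleton_left, mem_map]
      rintro ⟨z, -, hz⟩
      cases hz
    have h1 := hInd ({Sum.inl x} ∪ e.map Function.Embedding.inr) ?_
      (by rw [card_union_of_disjoint hd, card_singleton, card_map, hel, add_comm])
    · have e1 : ({Sum.inl x} ∪ e.map Function.Embedding.inr : Finset
          ((Fin k × Fin r) ⊕ Fin (k * (q' - 1) + 1))).image (Sum.elim K R) =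
          insert (K x) (e.image R) := by
        rw [image_union, image_singleton, map_eq_image, image_image, insert_eq]
        rfl
      rwa [e1] at h1
    · intro z hz
      rw [mem_union, mem_singleton, mem_map] at hz
      rcases hz with rfl | ⟨z, hz, rfl⟩
      · exact (hmK x).1 (hall hx)
      · exact (hmR z).1 (hJ1 (heJ hz))
  have hcard : (univ.filter fun x : Fin k × Fin r => H (insert (K x) (e.image R))).card + r ≤
      k * r := by
    have h1 : Disjoint (univ.filter fun x : Fin k × Fin r => H (insert (K x) (e.image R)))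
        (Pt k r j) := by
      rw [disjoint_left]
      intro x hx hx'
      exact hno x hx' (mem_filter.1 hx).2
    have h2 := card_le_univ ((univ.filter fun x : Fin k × Fin r =>
      H (insert (K x) (e.image R))) ∪ Pt k r j)
    rw [card_union_of_disjoint h1, card_Pt, Fintype.card_prod, Fintype.card_fin,
      Fintype.card_fin] at h2
    exact h2
  have hk0 : (k : ℝ) ≠ 0 := by
    have : k ≠ 0 := by omega
    exact_mod_cast this
  have e2 : (1 - 1 / (k : ℝ)) * ((Fintype.card (Fin k × Fin r) : ℕ) : ℝ) = k * r - r := by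
    rw [Fintype.card_prod, Fintype.card_fin, Fintype.card_fin]
    push_cast
    field_simp
  rw [e2] at hder
  have h3 : (((univ.filter fun x : Fin k × Fin r => H (insert (K x) (e.image R))).card : ℕ) : ℝ) +
      r ≤ k * r := by exact_mod_cast hcard
  linarith

end Pool.Agent.N507.CT.XC
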